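import Mathlib
import Pool.Agent.R439.WPE
import Pool.Agent.R439.Geom

set_option autoImplicit false

namespace Pool.Agent.Results.MP_659547_nt.EightKPlusOne

open Finset Polynomial Pool.Agent.R439

/-- `A_k(q)` of the problem -/
noncomputable def A (k : ℕ) : K :=
  poch q (q ^ 4) k ^ 6 / poch (q ^ 4) (q ^ 4) k ^ 6 *
    (poch (q ^ 2) (q ^ 2) (2 * k) / poch q (q ^ 2) (2 * k))

/-- The sum `S_n(q)` of the problem. -/
noncomputable def S (n : ℕ) : K :=
  ∑ k ∈ range n, q ^ (4 * k) * qint (8 * (k : ℤ) + 1) * A k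

/-- `[n]` as a polynomial -/
noncomputable def br (n : ℕ) : ℚ[X] := ∑ i ∈ range n, X ^ i

theorem term_eq (k : ℕ) : q ^ (4 * k) * qint (8 * (k : ℤ) + 1) * A k = TB 1 k * (1 - q)⁻¹ := by
  have fac : ∀ (x j : ℕ), (q : K) ^ x * (q ^ 4) ^ j = q ^ (x + 4 * j) := by
    intro x j
    rw [← pow_mul, ← pow_add]
  have h1 : poch (q : K) (q ^ 4) k ≠ 0 := poch_ne fun i _ => by
    have := fac 1 i
    rw [pow_one] at this
    rw [this]; exact q_pow_ne_one (by omega)
  have h2 : poch (q ^ 4 : K) (q ^ 4) k ≠ 0 := poch_ne fun i _ => by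
    rw [fac]; exact q_pow_ne_one (by omega)
  have h3 : poch (q ^ 3 : K) (q ^ 4) k ≠ 0 := poch_ne fun i _ => by
    rw [fac]; exact q_pow_ne_one (by omega)
  have e1 : (q ^ 2 : K) * q ^ 2 = q ^ 4 := by ring
  have e2 : ((q : K) ^ 2) ^ 2 = q ^ 4 := by ring
  have e3 : (q : K) * q ^ 2 = q ^ 3 := by ring
  have e4 : (1 : ℤ) + 8 * k = 8 * k + 1 := by ring
  have e5 : (q ^ ((k : ℤ) * (6 - 2 * 1)) : K) = q ^ (4 * k) := by
    rw [← zpow_natCast]; congr 1; push_cast; ring
  have e6 : (q ^ ((1 : ℤ) + 2) : K) = q ^ 3 := by norm_cast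
  rw [A, poch_double, poch_double, e1, e2, e3, TB, rho, qint, e4, e5, e6, zpow_one]
  field_simp

theorem S_eq (n : ℕ) : S n = (∑ k ∈ range n, TB 1 k) * (1 - q)⁻¹ := by
  rw [S, sum_mul]
  exact sum_congr rfl fun k _ => term_eq k

/-- **Answer to Q1.** For odd `n`: `[n]` divides `S_n(q)` if `n ≡ 1 (mod 4)`, and `[n] Φ_n(q)^2`
divides `S_n(q)` if `n ≡ 3 (mod 4)` (divisibility of the numerator in lowest terms). -/
theorem result : ∀ n : ℕ, Odd n →
    (n % 4 = 1 → br n ∣ (S n).num) ∧ (n % 4 = 3 → br n * cyclotomic n ℚ ^ 2 ∣ (S n).num) := by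
  intro n hodd
  have hn0 : 0 < n := hodd.pos
  have key : ∀ m, m ∣ n → 1 < m → cyclotomic m ℚ ∣ (S n).num := by
    intro m hm hm1
    have hmo : Odd m := Odd.of_dvd_nat hodd hm
    have hm3 : 3 ≤ m := by
      obtain ⟨c, hc⟩ := hmo
      omega
    have : NeZero m := ⟨by omega⟩
    obtain ⟨L, hL⟩ := hm
    have h1 := all_TB (m := m) hm3 hmo (r := 1) (Or.inl rfl) L
    have hU : U m (1 - q) := by
      have := U_one_sub (n := m) (e := 1) (fun h => by
        have := Int.le_of_dvd one_pos h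
        omega)
      rwa [zpow_one] at this
    have h2 := num_of_I (h1.mulR hU.2.2)
    rw [pow_one] at h2
    rw [S_eq, hL, mul_comm m L]
    exact h2
  refine ⟨fun _ => geom_dvd hn0 key, fun h3 => geom_sq_dvd (by omega) key ?_⟩
  have : NeZero n := ⟨by omega⟩
  obtain ⟨u, M, j0, e, D⟩ := (exists_data (n := n) (by omega) hodd (r := 1) (Or.inl rfl)).1
    (by omega)
  have hU : U n (1 - q) := by
    have := U_one_sub (n := n) (e := 1) (fun h => by
      have := Int.le_of_dvd one_pos h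
      omega)
    rwa [zpow_one] at this
  rw [S_eq]
  exact num_of_I (D.top.mulR hU.2.2)

end Pool.Agent.Results.MP_659547_nt.EightKPlusOne
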